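import Pool.Agent.H704R2.QG.QN1
import Pool.Agent.Helper919.Char
import Pool.Agent.Helper256.KM.Mertens

set_option autoImplicit false

/-! # Project QG, task QN: lower bounds for the partial sums -/

namespace Pool.Agent.H378R2.QG

open Finset Filter Topology
open Pool.Agent.Helper919 (XX)

namespace QN

/-- block sums -/
noncomputable def S (D : ℤ) (a b : ℕ) : ℝ :=
  ∑ p ∈ (Ioc a b).filter (fun p : ℕ => p.Prime), XX D p / p

/-- reciprocals of primes in a block -/
noncomputable def R (a b : ℕ) : ℝ := ∑ p ∈ (Ioc a b).filter (fun p : ℕ => p.Prime), (1 : ℝ) / p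

theorem S_add (D : ℤ) {a b c : ℕ} (h1 : a ≤ b) (h2 : b ≤ c) : S D a c = S D a b + S D b c := by
  unfold S
  rw [sum_filter, sum_filter, sum_filter]
  exact (Finset.sum_Ioc_consecutive _ h1 h2).symm

theorem Tc_eq (D : ℤ) {y w : ℝ} (hy : 0 ≤ y) :
    Tc (fun p => XX D p) y w = S D ⌊y⌋₊ ⌊w⌋₊ := by
  unfold Tc S PZ
  congr 1
  ext p
  simp only [mem_filter, mem_Icc, mem_Ioc, Nat.floor_lt hy]
  constructor
  · rintro ⟨⟨h1, h2⟩, h3, h4⟩
    exact ⟨⟨h4, h2⟩, h3⟩
  · rintro ⟨⟨h1, h2⟩, h3⟩
    exact ⟨⟨h3.pos, h2⟩, h3, h1⟩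

theorem S_eq_Sd (D : ℤ) {a b : ℕ} (ha : 2 ≤ a) : S D a b = Pool.Agent.H300R2.EC.Sd D a b := by
  unfold S Pool.Agent.H300R2.EC.Sd
  have h : (Ioc a b).filter (fun p : ℕ => p.Prime ∧ p ≠ 2) =
      (Ioc a b).filter (fun p : ℕ => p.Prime) := by
    apply filter_congr
    intro p hp
    rw [mem_Ioc] at hp
    constructor
    · exact fun h => h.1
    · exact fun h => ⟨h, by omega⟩
  rw [h]
  refine sum_congr rfl fun p hp => ?_
  rw [mem_filter, mem_Ioc] at hp
  have hodd : Odd p := hp.2.odd_of_ne_two (by omega)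
  rw [Pool.Agent.Helper919.XX_apply, if_pos hodd]

theorem S_abs (D : ℤ) (a b : ℕ) : |S D a b| ≤ R a b := by
  unfold S R
  refine (abs_sum_le_sum_abs _ _).trans (sum_le_sum fun p _ => ?_)
  rw [abs_div, abs_of_nonneg (Nat.cast_nonneg p : (0 : ℝ) ≤ p)]
  exact div_le_div_of_nonneg_right (Pool.Agent.Helper919.XX_abs_le D p) (Nat.cast_nonneg p)

theorem mert : ∃ C : ℝ, 0 ≤ C ∧ ∀ a b : ℕ, 3 ≤ a → a ≤ b →
    R a b ≤ Real.log (Real.log b) - Real.log (Real.log a) + C := by
  obtain ⟨C, hC⟩ := Pool.Agent.Helper256.KM.mertens_inv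
  have hC0 : 0 ≤ C := (abs_nonneg _).trans (hC 3 le_rfl)
  refine ⟨2 * C, by positivity, fun a b ha hab => ?_⟩
  have h1 := abs_le.1 (hC a ha)
  have h2 := abs_le.1 (hC b (ha.trans hab))
  have h3 : ∑ p ∈ (Icc 1 b).filter Nat.Prime, (1 : ℝ) / p =
      ∑ p ∈ (Icc 1 a).filter Nat.Prime, (1 : ℝ) / p + R a b := by
    unfold R
    have e : ∀ n : ℕ, Icc 1 n = Ioc 0 n := fun n => by ext k; simp only [mem_Icc, mem_Ioc]; omega
    rw [e, e, sum_filter, sum_filter, sum_filter]
    exact (Finset.sum_Ioc_consecutive _ (Nat.zero_le a) hab).symm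
  linarith [h1.1, h1.2, h2.1, h2.2]

/-- the statement of `block_sieve` -/
def BS : Prop := ∀ (H U V : ℕ) (_ : 1 ≤ H) (_ : 2 ≤ U) (_ : U ≤ V) (δ : ℝ) (_ : 0 < δ)
    (_ : 64 * (H : ℝ) ^ 2 * (1 + Real.log V) ≤ δ ^ 2 * U) (S : Finset ℤ)
    (_ : ∀ a ∈ S, a ≠ 0 ∧ |a| ≤ H ∧
      ∑ p ∈ (Ioc U V).filter (fun p : ℕ => p.Prime), XX a p / p ≤ -δ),
    (S.card : ℝ) ≤ 8 * (Real.sqrt H + 1) * (1 + Real.log V) ^ 2 / δ ^ 2

theorem ev : ∀ᶠ x : ℝ in atTop, 100 * Real.log x ≤ x ∧ 1152000 * Real.log x ^ 3 ≤ x ∧ 10 ≤ x := by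
  have h1 := (Real.isLittleO_pow_log_id_atTop (n := 1)).bound (show (0 : ℝ) < 1 / 100 by norm_num)
  have h2 := (Real.isLittleO_pow_log_id_atTop (n := 3)).bound (show (0 : ℝ) < 1 / 1152000 by norm_num)
  filter_upwards [h1, h2, eventually_ge_atTop 10] with x hx1 hx2 hx3
  simp only [id, Real.norm_eq_abs] at hx1 hx2
  rw [abs_of_nonneg (show (0 : ℝ) ≤ x by linarith)] at hx1 hx2
  have h3 := le_abs_self (Real.log x ^ 1)
  have h4 := le_abs_self (Real.log x ^ 3)
  rw [pow_one] at h3 hx1
  refine ⟨by linarith, by linarith, hx3⟩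

end QN

open QN in
/-- QN, with the statement of `block_sieve` as a hypothesis -/
theorem T_lower_of (hBS : BS) : ∃ C : ℝ, 0 ≤ C ∧ ∃ L₀ : ℝ, ∀ L : ℝ, L₀ ≤ L → ∃ E : Finset ℤ,
    (E.card : ℝ) ≤ L ^ (7 / 10 : ℝ) ∧
    ∀ D : ℤ, ¬ IsSquare D → |(D : ℝ)| ≤ L ^ (11 / 10 : ℝ) →
      (∀ w, L ^ 2 ≤ w → w ≤ Real.exp L → -(C + Real.log L / 20) ≤ Tc (fun p => XX D p) (L ^ 2) w) ∧
      (D ∉ E → ∀ w, L ^ 2 ≤ w → w ≤ Real.exp L → -C ≤ Tc (fun p => XX D p) (L ^ 2) w) := by
  classical
  obtain ⟨CM, hCM0, hM⟩ := mert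
  obtain ⟨P0, hP0⟩ := sw_tails
  refine ⟨2 * CM + 4, by positivity, ?_⟩
  have hev : ∀ᶠ L : ℝ in atTop, (100 * Real.log (L ^ (1 / 20 : ℝ)) ≤ L ^ (1 / 20 : ℝ) ∧
      1152000 * Real.log (L ^ (1 / 20 : ℝ)) ^ 3 ≤ L ^ (1 / 20 : ℝ) ∧ 10 ≤ L ^ (1 / 20 : ℝ)) ∧
      (P0 : ℝ) ≤ L ∧ 10 ≤ L :=
    ((tendsto_rpow_atTop (show (0 : ℝ) < 1 / 20 by norm_num)).eventually ev).and
      ((eventually_ge_atTop _).and (eventually_ge_atTop _))
  obtain ⟨L₀, hL₀⟩ := eventually_atTop.1 hev
  refine ⟨L₀, fun L hL => ?_⟩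
  obtain ⟨⟨e1, e2, e3⟩, e4, e5⟩ := hL₀ L hL
  have hL0 : 0 < L := by linarith
  set x := L ^ (1 / 20 : ℝ) with hx
  have hx0 : 0 < x := by linarith
  have hxk : ∀ k : ℕ, L ^ ((k : ℝ) / 20) = x ^ k := by
    intro k
    rw [hx, ← Real.rpow_natCast, ← Real.rpow_mul hL0.le]
    congr 1
    ring
  have hx20 : L = x ^ 20 := by
    have := hxk 20
    norm_num at this
    exact this
  have hlogL : Real.log L = 20 * Real.log x := by
    rw [hx20, Real.log_pow]; norm_num
  have hlx1 : 1 ≤ Real.log x := by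
    rw [Real.le_log_iff_exp_le hx0]
    linarith [Real.exp_one_lt_d9]
  have hlL : 20 ≤ Real.log L := by rw [hlogL]; linarith
  have h7 : L ^ (7 / 10 : ℝ) = x ^ 14 := by
    have := hxk 14
    norm_num at this
    exact this
  have h11 : L ^ (11 / 10 : ℝ) = x ^ 22 := by
    have := hxk 22
    norm_num at this
    exact this
  -- parameters
  set H := ⌊L ^ (11 / 10 : ℝ)⌋₊ with hH
  have hHle : (H : ℝ) ≤ x ^ 22 := by
    rw [← h11]; exact Nat.floor_le (by positivity)
  have hH1 : 1 ≤ H := by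
    rw [hH, h11]
    apply Nat.le_floor
    push_cast
    exact one_le_pow₀ (by linarith)
  set a₀ := ⌊L ^ 2⌋₊ with ha₀
  have ha₀L : L ≤ (a₀ : ℝ) := by
    have := Nat.lt_floor_add_one (L ^ 2)
    rw [← ha₀] at this
    nlinarith
  have ha₀3 : 3 ≤ a₀ := by
    have : (3 : ℝ) ≤ a₀ := by linarith
    exact_mod_cast this
  set b := ⌈L ^ 4⌉₊ with hb
  have hbL : L ^ 4 ≤ (b : ℝ) := Nat.le_ceil _
  have hbL' : (b : ℝ) ≤ L ^ 5 := by
    have h1 := Nat.ceil_lt_add_one (show 0 ≤ L ^ 4 by positivity)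
    rw [← hb] at h1
    have h2 : L ^ 5 = L ^ 4 * L := by ring
    have h3 : 1 ≤ L ^ 4 := one_le_pow₀ (by linarith)
    nlinarith
  have hbL1 : L ≤ (b : ℝ) := by
    have : L ^ 1 ≤ L ^ 4 := pow_le_pow_right₀ (by linarith) (by norm_num)
    rw [pow_one] at this
    linarith
  have hb0 : (0 : ℝ) < b := by linarith
  have hlogb : Real.log b ≤ 5 * Real.log L := by
    have := Real.log_le_log hb0 hbL'
    rwa [Real.log_pow, Nat.cast_ofNat] at this
  have hlogb1 : Real.log L ≤ Real.log b := Real.log_le_log hL0 hbL1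
  have hloga : Real.log L ≤ Real.log a₀ := Real.log_le_log hL0 ha₀L
  have hab : a₀ ≤ b := by
    have h1 : (a₀ : ℝ) ≤ L ^ 2 := Nat.floor_le (by positivity)
    have h2 : L ^ 2 ≤ L ^ 4 := pow_le_pow_right₀ (by linarith) (by norm_num)
    have : (a₀ : ℝ) ≤ b := by linarith
    exact_mod_cast this
  -- the blocks
  set U : ℕ → ℕ := fun i => b ^ 2 ^ i with hU
  have hUlog : ∀ i, Real.log (U i : ℝ) = 2 ^ i * Real.log b := by
    intro i
    simp only [hU]
    push_cast
    rw [Real.log_pow]
    push_cast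
    ring
  have hb1 : 1 ≤ b := by
    have : (1 : ℝ) ≤ b := by linarith
    exact_mod_cast this
  have hUmono : ∀ i j, i ≤ j → U i ≤ U j := fun i j hij =>
    Nat.pow_le_pow_right hb1 (Nat.pow_le_pow_right (by norm_num) hij)
  have hU0 : U 0 = b := by simp [hU]
  have hUb : ∀ i, b ≤ U i := fun i => by
    have := hUmono 0 i (Nat.zero_le i)
    rwa [hU0] at this
  have hex : ∃ i, x ≤ Real.log (U i : ℝ) := by
    obtain ⟨i, hi⟩ := pow_unbounded_of_one_lt x (show (1 : ℝ) < 2 by norm_num)
    refine ⟨i, ?_⟩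
    rw [hUlog]
    have : (1 : ℝ) ≤ Real.log b := by linarith
    have h2 : (0 : ℝ) < 2 ^ i := by positivity
    nlinarith
  set I := Nat.find hex with hI
  have hIx : x ≤ Real.log (U I : ℝ) := Nat.find_spec hex
  have hIm : ∀ i < I, Real.log (U i : ℝ) < x := fun i hi => by
    have := Nat.find_min hex hi
    push Not at this
    exact this
  have hI2 : ∀ i ≤ I, Real.log (U i : ℝ) ≤ 2 * x := by
    intro i hi
    rcases Nat.eq_zero_or_pos i with h0 | h0
    · subst h0
      rw [hU0]
      rw [hlogL] at hlogb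
      linarith
    · obtain ⟨j, rfl⟩ : ∃ j, i = j + 1 := ⟨i - 1, by omega⟩
      have h1 := hIm j (by omega)
      rw [hUlog] at h1 ⊢
      rw [pow_succ]
      linarith
  have hIlog : (I : ℝ) ≤ Real.log L := by
    rcases Nat.eq_zero_or_pos I with h0 | h0
    · rw [h0]; push_cast; linarith
    · obtain ⟨j, hj⟩ : ∃ j, I = j + 1 := ⟨I - 1, by omega⟩
      have h1 := hIm j (by omega)
      rw [hUlog] at h1
      have h2 : (2 : ℝ) ^ j ≤ x := by
        have : (1 : ℝ) ≤ Real.log b := by linarith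
        have h3 : (0 : ℝ) < 2 ^ j := by positivity
        nlinarith
      have h4 : (j : ℝ) * Real.log 2 ≤ Real.log x := by
        rw [← Real.log_pow]
        exact Real.log_le_log (by positivity) h2
      have h5 := Real.log_two_gt_d9
      rw [hj, hlogL]
      push_cast
      have h6 : (0 : ℝ) ≤ j := Nat.cast_nonneg j
      nlinarith
  set δ := 1 / Real.log L with hδ
  have hδ0 : 0 < δ := by rw [hδ]; positivity
  have hIδ : (I : ℝ) * δ ≤ 1 := by
    rw [hδ, mul_one_div, div_le_one (by linarith)]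
    exact hIlog
  -- the exceptional set
  set E : ℕ → Finset ℤ := fun i => (Icc (-(H : ℤ)) H).filter
    (fun a => a ≠ 0 ∧ S a (U i) (U (i + 1)) ≤ -δ) with hE
  have hsqrtH : Real.sqrt H ≤ x ^ 11 := by
    rw [show x ^ 11 = Real.sqrt ((x ^ 11) ^ 2) by rw [Real.sqrt_sq (by positivity)]]
    apply Real.sqrt_le_sqrt
    refine hHle.trans (le_of_eq ?_)
    ring
  have hx11 : 1 ≤ x ^ 11 := one_le_pow₀ (by linarith)
  have hEcard : ∀ i < I, ((E i).card : ℝ) ≤ 57600 * x ^ 13 * Real.log x ^ 2 := by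
    intro i hi
    have hV : Real.log (U (i + 1) : ℝ) ≤ 2 * x := hI2 (i + 1) (by omega)
    have hV0 : 0 ≤ Real.log (U (i + 1) : ℝ) := Real.log_natCast_nonneg _
    have hUi : L ^ 4 ≤ (U i : ℝ) := by
      have : (b : ℝ) ≤ U i := by exact_mod_cast hUb i
      linarith
    have hcond : 64 * (H : ℝ) ^ 2 * (1 + Real.log (U (i + 1) : ℝ)) ≤ δ ^ 2 * (U i : ℝ) := by
      have c1 : 64 * (H : ℝ) ^ 2 * (1 + Real.log (U (i + 1) : ℝ)) ≤ 64 * (x ^ 22) ^ 2 * (3 * x) := by
        apply mul_le_mul
        · apply mul_le_mul_of_nonneg_left _ (by norm_num)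
          exact pow_le_pow_left₀ (Nat.cast_nonneg H) hHle 2
        · linarith
        · linarith
        · positivity
      have c2 : δ ^ 2 * L ^ 4 ≤ δ ^ 2 * (U i : ℝ) := mul_le_mul_of_nonneg_left hUi (by positivity)
      refine c1.trans (le_trans ?_ c2)
      rw [hδ, div_pow, one_pow, one_div_mul_eq_div, le_div_iff₀ (by positivity), hlogL, hx20]
      have c3 : (20 * Real.log x) ^ 2 ≤ x ^ 2 := by
        apply pow_le_pow_left₀ (by linarith)
        linarith
      calc 64 * (x ^ 22) ^ 2 * (3 * x) * (20 * Real.log x) ^ 2 ≤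
            64 * (x ^ 22) ^ 2 * (3 * x) * x ^ 2 := mul_le_mul_of_nonneg_left c3 (by positivity)
        _ = x ^ 47 * 192 := by ring
        _ ≤ x ^ 47 * x ^ 33 := by
            apply mul_le_mul_of_nonneg_left _ (by positivity)
            calc (192 : ℝ) ≤ 10 ^ 33 := by norm_num
              _ ≤ x ^ 33 := pow_le_pow_left₀ (by norm_num) e3 33
        _ = (x ^ 20) ^ 4 := by ring
    have hUi2 : 2 ≤ U i := by
      have h1 := hUb i
      omega
    have h1 := hBS H (U i) (U (i + 1)) hH1 hUi2 (hUmono _ _ (by omega)) δ hδ0 hcond (E i) (by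
      intro a ha
      simp only [hE, mem_filter, mem_Icc] at ha
      exact ⟨ha.2.1, abs_le.2 ha.1, ha.2.2⟩)
    refine h1.trans ?_
    rw [hδ, div_pow, one_pow, div_div_eq_mul_div, div_one, hlogL]
    calc 8 * (Real.sqrt H + 1) * (1 + Real.log (U (i + 1) : ℝ)) ^ 2 * (20 * Real.log x) ^ 2 ≤
          8 * (2 * x ^ 11) * (3 * x) ^ 2 * (20 * Real.log x) ^ 2 := by
          apply mul_le_mul_of_nonneg_right _ (by positivity)
          apply mul_le_mul
          · linarith
          · apply pow_le_pow_left₀ (by linarith)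
            linarith
          · positivity
          · positivity
      _ = 57600 * x ^ 13 * Real.log x ^ 2 := by ring
  refine ⟨(range I).biUnion E, ?_, ?_⟩
  · have h1 : (((range I).biUnion E).card : ℝ) ≤ ∑ i ∈ range I, ((E i).card : ℝ) := by
      exact_mod_cast card_biUnion_le
    have h2 : ∑ i ∈ range I, ((E i).card : ℝ) ≤ (I : ℝ) * (57600 * x ^ 13 * Real.log x ^ 2) := by
      have := sum_le_sum (fun i hi => hEcard i (mem_range.1 hi)) (s := range I)
      rw [sum_const, card_range, nsmul_eq_mul] at this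
      exact this
    rw [h7]
    refine h1.trans (h2.trans ?_)
    calc (I : ℝ) * (57600 * x ^ 13 * Real.log x ^ 2) ≤
          Real.log L * (57600 * x ^ 13 * Real.log x ^ 2) :=
          mul_le_mul_of_nonneg_right hIlog (by positivity)
      _ = x ^ 13 * (1152000 * Real.log x ^ 3) := by rw [hlogL]; ring
      _ ≤ x ^ 13 * x := mul_le_mul_of_nonneg_left e2 (by positivity)
      _ = x ^ 14 := by ring
  · intro D hD hDL
    have hDH : |D| ≤ (H : ℤ) := by
      have h1 : ((D.natAbs : ℕ) : ℝ) ≤ L ^ (11 / 10 : ℝ) := by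
        rw [Nat.cast_natAbs, Int.cast_abs]
        exact hDL
      have h2 := Nat.le_floor h1
      rw [Int.abs_eq_natAbs]
      exact_mod_cast h2
    have hD0 : D ≠ 0 := by rintro rfl; exact hD ⟨0, rfl⟩
    -- the tail
    have tail : ∀ W : ℕ, U I ≤ W → |S D (U I) W| ≤ 1 := by
      intro W hW
      have hUI2 : 2 ≤ U I := by
        have h1 := hUb I
        omega
      rw [S_eq_Sd D hUI2]
      apply hP0 (U I) _ W hW D hD
      · have c1 : x ^ 40 ≤ Real.log (U I : ℝ) ^ 40 := pow_le_pow_left₀ hx0.le hIx 40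
        refine le_trans ?_ c1
        rw [h11] at hDL
        calc 4 * |(D : ℝ)| ≤ 4 * x ^ 22 := by linarith
          _ ≤ x ^ 18 * x ^ 22 := by
              apply mul_le_mul_of_nonneg_right _ (by positivity)
              calc (4 : ℝ) ≤ 10 ^ 18 := by norm_num
                _ ≤ x ^ 18 := pow_le_pow_left₀ (by norm_num) e3 18
          _ = x ^ 40 := by ring
      · have : (P0 : ℝ) ≤ (b : ℝ) := by linarith
        have h2 : P0 ≤ b := by exact_mod_cast this
        exact h2.trans (hUb I)
    have hlog5 : Real.log 5 ≤ 2 := by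
      rw [Real.log_le_iff_le_exp (by norm_num)]
      have h2 : Real.exp 2 = Real.exp 1 ^ 2 := by
        rw [← Real.exp_nat_mul]; norm_num
      rw [h2]
      have h3 := Real.exp_one_gt_d9
      nlinarith
    have hll : 0 < Real.log L := by linarith
    constructor
    · intro w hw1 hw2
      rw [Tc_eq D (by positivity : (0 : ℝ) ≤ L ^ 2)]
      set W := ⌊w⌋₊
      have hW : a₀ ≤ W := Nat.floor_le_floor hw1
      have piece : ∀ V : ℕ, a₀ ≤ V → V ≤ U I → |S D a₀ V| ≤ Real.log L / 20 + Real.log 2 + CM := by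
        intro V h1 h2
        refine (S_abs D a₀ V).trans ((hM a₀ V ha₀3 h1).trans ?_)
        have hV3 : 3 ≤ V := ha₀3.trans h1
        have hVpos : (0 : ℝ) < V := by
          have : (3 : ℝ) ≤ V := by exact_mod_cast hV3
          linarith
        have c1 : Real.log V ≤ 2 * x := by
          refine le_trans ?_ (hI2 I le_rfl)
          exact Real.log_le_log hVpos (by exact_mod_cast h2)
        have c2 : Real.log (Real.log V) ≤ Real.log (2 * x) := by
          apply Real.log_le_log _ c1
          apply Real.log_pos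
          have : (3 : ℝ) ≤ V := by exact_mod_cast hV3
          linarith
        rw [Real.log_mul (by norm_num) hx0.ne'] at c2
        have c3 : 0 ≤ Real.log (Real.log a₀) := Real.log_nonneg (by linarith)
        rw [hlogL]
        linarith
      have hl2 := Real.log_two_lt_d9
      rcases le_or_gt W (U I) with h | h
      · have := (abs_le.1 (piece W hW h)).1
        linarith
      · rw [S_add D (hab.trans (hUb I)) h.le]
        have h1 := (abs_le.1 (piece (U I) (hab.trans (hUb I)) le_rfl)).1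
        have h2 := (abs_le.1 (tail W h.le)).1
        linarith
    · intro hDE w hw1 hw2
      rw [Tc_eq D (by positivity : (0 : ℝ) ≤ L ^ 2)]
      set W := ⌊w⌋₊
      have hW : a₀ ≤ W := Nat.floor_le_floor hw1
      have hblock : ∀ i < I, -δ < S D (U i) (U (i + 1)) := by
        intro i hi
        by_contra hcon
        push Not at hcon
        apply hDE
        rw [mem_biUnion]
        refine ⟨i, mem_range.2 hi, ?_⟩
        simp only [hE, mem_filter, mem_Icc]
        exact ⟨abs_le.1 hDH, hD0, hcon⟩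
      have first : ∀ V : ℕ, a₀ ≤ V → V ≤ b → |S D a₀ V| ≤ Real.log 5 + CM := by
        intro V h1 h2
        refine (S_abs D a₀ V).trans ((hM a₀ V ha₀3 h1).trans ?_)
        have hV3 : (3 : ℝ) ≤ V := by exact_mod_cast ha₀3.trans h1
        have c1 : Real.log V ≤ 5 * Real.log L := by
          refine le_trans ?_ hlogb
          exact Real.log_le_log (by linarith) (by exact_mod_cast h2)
        have c2 : Real.log (Real.log V) ≤ Real.log (5 * Real.log L) := by
          apply Real.log_le_log _ c1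
          apply Real.log_pos
          linarith
        rw [Real.log_mul (by norm_num) hll.ne'] at c2
        have c3 : Real.log (Real.log L) ≤ Real.log (Real.log a₀) := Real.log_le_log hll hloga
        linarith
      have mid : ∀ i ≤ I, -(Real.log 5 + CM) - i * δ ≤ S D a₀ (U i) := by
        intro i
        induction i with
        | zero =>
          intro _
          rw [hU0]
          have := (abs_le.1 (first b hab le_rfl)).1
          push_cast
          linarith
        | succ i ih =>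
          intro hi
          rw [S_add D (hab.trans (hUb i)) (hUmono i (i + 1) (by omega))]
          have h1 := ih (by omega)
          have h2 := hblock i (by omega)
          push_cast
          linarith
      have last : ∀ i V : ℕ, U i ≤ V → V ≤ U (i + 1) → |S D (U i) V| ≤ Real.log 2 + CM := by
        intro i V h1 h2
        have hUi3 : 3 ≤ U i := ha₀3.trans (hab.trans (hUb i))
        refine (S_abs D _ V).trans ((hM (U i) V hUi3 h1).trans ?_)
        have hV3 : (3 : ℝ) ≤ V := by exact_mod_cast hUi3.trans h1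
        have c0 : 0 < Real.log (U i : ℝ) := by
          apply Real.log_pos
          have : (3 : ℝ) ≤ U i := by exact_mod_cast hUi3
          linarith
        have c1 : Real.log V ≤ 2 * Real.log (U i : ℝ) := by
          have c4 : Real.log V ≤ Real.log (U (i + 1) : ℝ) :=
            Real.log_le_log (by linarith) (by exact_mod_cast h2)
          rw [hUlog (i + 1), pow_succ] at c4
          rw [hUlog i]
          linarith
        have c2 : Real.log (Real.log V) ≤ Real.log (2 * Real.log (U i : ℝ)) := by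
          apply Real.log_le_log _ c1
          apply Real.log_pos
          linarith
        rw [Real.log_mul (by norm_num) c0.ne'] at c2
        linarith
      have hl2 := Real.log_two_lt_d9
      rcases le_or_gt W b with h | h
      · have := (abs_le.1 (first W hW h)).1
        linarith
      · rcases le_or_gt (U I) W with h' | h'
        · rw [S_add D (hab.trans (hUb I)) h']
          have h1 := mid I le_rfl
          have h2 := (abs_le.1 (tail W h')).1
          linarith
        · -- the block containing `W`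
          have hexi : ∃ i, W < U i := ⟨I, h'⟩
          set j := Nat.find hexi with hj
          have hj1 : W < U j := Nat.find_spec hexi
          have hjI : j ≤ I := Nat.find_min' hexi h'
          have hj0 : j ≠ 0 := by
            intro h0
            rw [h0, hU0] at hj1
            omega
          obtain ⟨i, hi⟩ : ∃ i, j = i + 1 := ⟨j - 1, by omega⟩
          have hiW : U i ≤ W := by
            have := Nat.find_min hexi (m := i) (by omega)
            omega
          rw [S_add D (hab.trans (hUb i)) hiW]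
          have h1 := mid i (by omega)
          have h2 := (abs_le.1 (last i W hiW (by rw [← hi]; exact hj1.le))).1
          have h3 : (i : ℝ) * δ ≤ I * δ := by
            apply mul_le_mul_of_nonneg_right _ hδ0.le
            exact_mod_cast (by omega : i ≤ I)
          linarith

end Pool.Agent.H378R2.QG
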