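import Pool.Agent.H364R2.EC_SwTail
import Pool.Agent.H378R2.QG.Defs

set_option autoImplicit false

/-! # Project QG, task QN1: Siegel-Walfisz for the tails -/

namespace Pool.Agent.H378R2.QG

open Finset

namespace QN1

open Pool.Agent.H300R2.EC (Sd)

theorem Sd_add (D : ℤ) {P R Q : ℕ} (h1 : P ≤ R) (h2 : R ≤ Q) :
    Sd D P Q = Sd D P R + Sd D R Q := by
  unfold Sd
  rw [sum_filter, sum_filter, sum_filter]
  exact (Finset.sum_Ioc_consecutive _ h1 h2).symm

end QN1

/-- QN1: Siegel-Walfisz for the tails -/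
theorem sw_tails : ∃ P0 : ℕ, ∀ P : ℕ, P0 ≤ P → ∀ Q : ℕ, P ≤ Q → ∀ D : ℤ,
    ¬ IsSquare D → 4 * |(D : ℝ)| ≤ Real.log P ^ 40 → |Pool.Agent.H300R2.EC.Sd D P Q| ≤ 1 := by
  obtain ⟨P0, h0⟩ := Pool.Agent.H364R2.EC.sw_tail 2 40
  refine ⟨max P0 60, ?_⟩
  have hlog : ∀ P : ℕ, 60 ≤ P → 4 ≤ Real.log P := by
    intro P hP
    have h1 : (60 : ℝ) ≤ P := by exact_mod_cast hP
    rw [Real.le_log_iff_exp_le (by linarith)]
    have h2 : Real.exp 4 = Real.exp 1 ^ 4 := by
      rw [← Real.exp_nat_mul]; norm_num
    rw [h2]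
    have h3 := Real.exp_one_lt_d9
    have h4 : Real.exp 1 ^ 4 ≤ 2.7182818286 ^ 4 :=
      pow_le_pow_left₀ (Real.exp_pos 1).le h3.le 4
    have h5 : (2.7182818286 : ℝ) ^ 4 ≤ 60 := by norm_num
    linarith
  -- the inductive statement
  have key : ∀ n P Q : ℕ, Q - P ≤ n → max P0 60 ≤ P → P ≤ Q → ∀ D : ℤ, ¬ IsSquare D →
      4 * |(D : ℝ)| ≤ Real.log P ^ 40 →
      |Pool.Agent.H300R2.EC.Sd D P Q| ≤ 2 / (Real.log P - 1) := by
    intro n
    induction n with
    | zero =>
      intro P Q h1 hP hPQ D hD hDP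
      have : Q = P := by omega
      subst this
      have h60 := hlog Q (le_trans (le_max_right _ _) hP)
      unfold Pool.Agent.H300R2.EC.Sd
      simp only [Ioc_self, filter_empty, sum_empty, abs_zero]
      exact div_nonneg (by norm_num) (by linarith)
    | succ n ih =>
      intro P Q h1 hP hPQ D hD hDP
      have h60 := hlog P (le_trans (le_max_right _ _) hP)
      have hP60 : 60 ≤ P := le_trans (le_max_right _ _) hP
      set L := Real.log P with hL
      have hstep : 1 / L ^ 2 ≤ 2 / (L - 1) - 2 / (L + Real.log 2 - 1) := by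
        have hl2 := Real.log_two_gt_d9
        have hl2' := Real.log_two_lt_d9
        have e1 : 2 / (L - 1) - 2 / (L + Real.log 2 - 1) =
            2 * Real.log 2 / ((L - 1) * (L + Real.log 2 - 1)) := by
          have : L - 1 ≠ 0 := by linarith
          have : L + Real.log 2 - 1 ≠ 0 := by linarith
          field_simp
          ring
        rw [e1, div_le_div_iff₀ (by positivity) (by
          apply mul_pos <;> linarith)]
        nlinarith
      rcases le_or_gt Q (2 * P) with h2 | h2
      · have h3 := h0 P (le_trans (le_max_left _ _) hP) Q hPQ h2 D hD hDP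
        have h4 : 0 ≤ 2 / (L + Real.log 2 - 1) := by
          have hl2 := Real.log_two_gt_d9
          exact div_nonneg (by norm_num) (by linarith)
        linarith
      · have h3 := h0 P (le_trans (le_max_left _ _) hP) (2 * P) (by omega) le_rfl D hD hDP
        have hlog2 : Real.log ((2 * P : ℕ) : ℝ) = L + Real.log 2 := by
          push_cast
          rw [Real.log_mul (by norm_num) (by positivity)]
          ring
        have h4 := ih (2 * P) Q (by omega) (by omega) h2.le D hD (by
          rw [hlog2]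
          refine hDP.trans ?_
          apply pow_le_pow_left₀ (by linarith)
          linarith [Real.log_two_gt_d9])
        rw [hlog2] at h4
        rw [QN1.Sd_add D (by omega : P ≤ 2 * P) h2.le]
        have := abs_add_le (Pool.Agent.H300R2.EC.Sd D P (2 * P)) (Pool.Agent.H300R2.EC.Sd D (2 * P) Q)
        linarith
  intro P hP Q hPQ D hD hDP
  have h60 := hlog P (le_trans (le_max_right _ _) hP)
  refine (key (Q - P) P Q le_rfl hP hPQ D hD hDP).trans ?_
  rw [div_le_one (by linarith)]
  linarith

end Pool.Agent.H378R2.QG
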